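import Pool.Agent.H846.Hdt.Square
import Pool.Agent.H846.Hdt.Irr

/-!
# The standard conjectures of Hodge type (homological form) and D for products of varieties from
the detection of correspondences at places

Let `X` and `Y` be polarized varieties over a field of any characteristic which satisfy the hard
Lefschetz theorem and the Lefschetz standard conjecture (for example surfaces or abelian
varieties). A correspondence `v` from `X` to `Y` is detected at a place `(X₀, Y₀)` (a
specialisation, a lifting, or a chain of these) if it corresponds to a correspondence `v₀` from
`X₀` to `Y₀` and for some variety `Z` and some cycle `z` on `Z × X₀` the composition of `z` with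
`v₀` does not vanish in cohomology, where the standard conjecture of Hodge type holds for
`Z × X₀` and `Z × Y₀` in the codimensions of `z` and of the composition. If `Z` is a point or a
curve and these cycles are divisors, this is the Hodge index theorem.

We prove that a detected correspondence is not numerically equivalent to zero; that the standard
conjecture of Hodge type (homological form) holds for `X × Y` in the codimensions at most `l`, and
homological and numerical equivalence agree in the codimensions at most `l` and at least
`dim X + dim Y - l`, if all correspondences of codimension `l` with nonzero class are detected,
each at a place of its own; and that for `X × X` this is an equivalence.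

All correspondences of codimension `l` are detected if `H(X)` is spanned by the images under
symmetries (for instance monodromy) of classes which become algebraic at places to which the cycles
of codimension `l` on `X × Y` specialise. This is the case if `X` is a surface such that for each
proper subspace `U` of the transcendental part of `H^2(X)` which is stable under the symmetries `X₀`
has a divisor outside `NS(X) + U` at one place `(X₀, Y₀)` of `(X, Y)` (so, if the transcendental
part is irreducible, `X₀` has more divisors than `X` at ONE place), where the standard conjecture of
Hodge type is known for `Y` and `Y₀` (and for `C × Y`, if `H^1(X)` comes from the curve `C`) in the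
codimensions at most `l`.

So in characteristic `p` the standard conjectures of Hodge type and D hold in all codimensions for
`X × Y`, where `X` is a surface for which the transcendental part of `H^2(X)` is irreducible for the
open subgroups of the geometric monodromy group and the Picard number jumps at one specialisation
of `(X, Y)`, and `Y` is any surface or, if `H^1(X) = 0`, any threefold which satisfies the Lefschetz
standard conjecture: all other hypotheses are known theorems (the Hodge index theorem). For example
if `X` is a K3 surface with odd Picard number over a function field with a finite field of constants
then the Picard number jumps at ALL specialisations to finite fields, by the Tate conjecture.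
-/

open CategoryTheory AlgebraicGeometry

universe u v

namespace Pool.Agent.Results.MP_361a6f_ag.DetectionOfCorrespondences

open Pool.Agent.H914 Pool.Agent.H914.VarClass Pool.Agent.H914.VarClass.Obj
  Pool.Agent.H281R3.HT Pool.Agent.R911.Iso Pool.Agent.H846.Det Pool.Agent.H846.Plc
  Pool.Agent.H846.Hdt

/-- **The standard conjectures of Hodge type and D for `X × Y` from the detection of the
correspondences at places.** -/
theorem result {k : Type u} [Field k] {𝒱 : VarClass k} {ops : CycleOps 𝒱}
    (W : WeilCohomology.{u, v} ops) (P Q : Polarized 𝒱) (hP : IsLefschetz W P)
    (hQ : IsLefschetz W Q) :
    (∀ l v, (P.X.prod Q.X).IsCyc l v → HomDetectedSomewhere W P Q l v →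
      ¬ NumZero ops (P.X.prod Q.X) l v) ∧
    (∀ l, 2 * l ≤ (P.X.prod Q.X).dim → AllDetected W P Q l →
      HomHodgeUpTo W (P.prod ops Q) l ∧ ∀ j ≤ (P.X.prod Q.X).dim,
        j ≤ l ∨ (P.X.prod Q.X).dim ≤ j + l → NumHomIn W (P.X.prod Q.X) j) ∧
    (HomHodgeUpTo W (P.prod ops P) P.X.dim ↔ AllDetected W P P P.X.dim) ∧
    (∀ l, SpannedBySpecialisations W P Q l → AllDetected W P Q l) ∧
    (∀ l, 2 ≤ l → EnoughJumps W P Q l → SpannedBySpecialisations W P Q l) := by
  refine ⟨fun l v hv h => not_numZero_of_detected hP hQ hv h,
    fun l hl h => hodge_and_d P Q hP hQ l hl h, ⟨fun h v hv hv0 => detected_of_homHodge hP h hv hv0,
    fun h => (hodge_and_d P P hP hP P.X.dim ?_ h).1⟩, fun l h => allDetected_of_spanned h,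
    fun l hl h => spanned_of_jumps hl h⟩
  rw [dim_prod]
  omega

end Pool.Agent.Results.MP_361a6f_ag.DetectionOfCorrespondences
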