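import Pool.Agent.H843.Hq3

/-!
# The numerical Hodge index theorem, hard Lefschetz and the standard conjecture of Lefschetz type

Let `W` be a Weil cohomology theory with algebraic Kunneth projectors (for example `ℓ`-adic
cohomology of varieties over an algebraic closure of a finite field), and let `Pol X` be sets of
divisors on the varieties `X` of a class closed under products which behave like the sets of all
ample divisors. Hard Lefschetz is not assumed. The following are equivalent:

* the numerical Hodge index theorem for all varieties and all codimensions (the standard conjecture
  of Hodge type modulo numerical equivalence; no cohomology occurs);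
* for arbitrarily large even dimensions, no nonzero numerically primitive cycle of codimension
  `dim X` on a square `X × X` has self-intersection number zero;
* hard Lefschetz and the standard conjecture of Lefschetz type hold for `W`, and the forms of the
  standard conjecture of Hodge type are positive semidefinite on the primitive algebraic classes;
* the conjecture `A` holds for `W`, and the forms are positive semidefinite;
* hard Lefschetz and the standard conjecture of Lefschetz type hold for `W`, and all eigenvalues
  of algebraic isometries have absolute value one;
* some theory with the Betti numbers and traces of `W` satisfies all standard conjectures.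

Moreover `W` satisfies all standard conjectures if and only if the numerical Hodge index theorem
and the conjecture `D` for `W` hold.
-/

open CategoryTheory AlgebraicGeometry

universe u v

namespace Pool.Agent.Results.MP_361a6f_ag.IndexTheoremGivesLefschetz

open Pool.Agent.H914 Pool.Agent.H914.VarClass Pool.Agent.H914.VarClass.Obj
  Pool.Agent.H914.WeilCohomology Pool.Agent.H843

variable {k : Type u} [Field k] {𝒱 : VarClass k} {ops : CycleOps 𝒱}

/-- Let `Pol X` be sets of divisors on the varieties `X` of a class of varieties which is closed
under products and contains a point and a curve, such that the `Pol X` behave like the sets of all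
ample divisors, and let `W` be a Weil cohomology theory for which all varieties have algebraic
Kunneth projectors, or an endomorphism which satisfies the Riemann hypothesis. Then the six
conditions `NumHodgeAll`, `NoIsotropicSquares`, `LefschetzAndSemiPositive`, `AAndSemiPositive`,
`LefschetzAndRiemann` and `TwinSatisfiesAll` are equivalent, and `W` satisfies all standard
conjectures if and only if `NumHodgeAll` holds and homological and numerical equivalence
coincide. -/
theorem result {Pol : ∀ X : 𝒱.Obj, Set X.Cycles} (hPol : IsPolSystem ops Pol)
    (hP : ∃ P : 𝒱.Obj, P.dim = 0) (hE : ∃ E : 𝒱.Obj, E.dim = 1)
    (W : WeilCohomology.{u, max (u + 1) v} ops) (hW : ∀ X, HasKunneth W X) :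
    List.TFAE [NumHodgeAll ops Pol, NoIsotropicSquares ops Pol, LefschetzAndSemiPositive W Pol,
      AAndSemiPositive W Pol, LefschetzAndRiemann W Pol, TwinSatisfiesAll W Pol] ∧
    (AllStandard W Pol ↔ HomEqNumAll W ∧ NumHodgeAll ops Pol) := by
  have hK : ∀ X, KunnethStd W X := by
    intro X
    rcases hW X with h | ⟨f, q, hq, h⟩
    · exact h
    · exact kunneth_of_rh hq h
  exact ⟨Hq.main hPol hP hE W hK, Hq.allStandard_iff hPol hK⟩

end Pool.Agent.Results.MP_361a6f_ag.IndexTheoremGivesLefschetz
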