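import Mathlib
import Pool.Agent.H298.Exo.Cor
import Pool.Agent.H298.Core.Double

/-!
# The standard conjecture of Hodge type for abelian varieties with exotic Tate classes: small factors
with arbitrary relations, free factors of all dimensions, and factors of all dimensions over an
imaginary quadratic field

**In short.** Let `A` be an abelian variety over an algebraic closure of the field with `p`
elements, isogenous to a product of powers of simple abelian varieties `A i` (for simplicity with
commutative algebras of endomorphisms, the CM fields `K i`) and of a supersingular one. Suppose that
the fields `K i` are *separated* (see below; this is a condition on pairs of fields only, satisfied
if the composita have the maximal degrees), and that each `A i` satisfies one of the following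
conditions **on its own**.

* `A i` has **dimension at most five**, and there is no condition on its Weil number: all relations
  between its Frobenius eigenvalues are allowed. More generally some of the `A i` can be combined to
  blocks of abelian varieties of dimension at most three, or of total dimension at most five; the
  fields in one block can be arbitrarily dependent.
* `A i` has any dimension and is *free*: there are no relations between its eigenvalues. By the
  criteria below this is a condition on the Galois group and on norms only, for large classes of
  fields (small cores), and not a condition on the Newton polygon.
* `K i` contains a given imaginary quadratic field `k`, the dimension is arbitrary, and all relations
  come from `k`; this is so for all Weil numbers (with arbitrary Newton polygons) if the dimension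
  is a prime number, or if the Galois group over `k` is doubly transitive on the embeddings over `k`.
  As soon as there are two factors of this kind there are **exotic** Tate classes, which are not
  generated by divisors and for which the Tate conjecture is not known.

Then, for `l`-adic cohomology and **every prime number `l` which does not split in `k`** (every `l`
if there are no factors of the third kind), the standard conjecture of Hodge type (the question of
this page, for classes modulo `l`-adic homological equivalence) holds for `A` and for all smooth
projective varieties over arbitrary algebraically closed fields of characteristic `p` which
specialize to `A` together with an ample divisor, and on these varieties numerical and `l`-adic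
homological equivalence coincide (for the varieties which are not abelian: if they satisfy the
conjecture `A` of Lefschetz type).

**The setting.** (As in MP_ffcd14_ag.ExoticQuadraticTypes, by helper395.) By theorems of Honda and
Tate each abelian variety over the algebraic closure of the field with `p` elements is isogenous to
the reduction `Y` of an abelian variety of CM type. So `Y` is modelled by `RedAV` (library): a
finite product of CM types with Weil numbers which satisfy the formula of Shimura and Taniyama. The
`l`-adic cohomology of `Y` consists of the alternating forms on `F.Ω l ⊗ H1 Y` (`Fun`), where
`F.Ω l` is an algebraically closed field which contains the `l`-adic numbers. The sets of the
families of classes of algebraic cycles are a datum `C` with the properties `IsTheory`, all of which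
are known theorems on algebraic cycles: formal properties, rational degrees independent of `l`, the
theorem of Tate for divisors, the algebraicity of the Hodge classes of degree two (Lefschetz) and of
the split Weil classes in the dimensions four and six (Markman), rationality of the intersection
numbers of algebraic classes with Hodge classes of the lifting, the positivity of the Rosati
involution (Weil), and algebraic classes are Tate classes.

**The Weil numbers.** `W i`, `i` in a finite set `I`, are Weil numbers `π i` of weight `a` in CM
fields `K i` (`WeilNum`). Given are an imaginary quadratic field `k` (`Q : ImagQuad`), a subset `J`
of `I` and embeddings of `k` into the fields `K i`, `i` in `J`, and a function `β` whose value
`some b` means that `π i` is in the block `b`, and whose value `none` means that `π i` is in no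
block. The class of abelian varieties (`OfNumbersOn`): each factor of `Y` is supersingular or some
power of its Frobenius endomorphism is a power of one of the `π i`; and for the `i` in `J` and in
the blocks its CM field is `K i` (the algebra of endomorphisms is commutative).

**Theorem.** The first two statements of `result` are special cases of the general theorem: (A) *let
`K i` be pairwise unlinked CM fields of degree at most ten; then the conjecture holds for all `l` and
for all Weil numbers in these fields*; (B) *let `K i` be CM fields which contain `k` and are pairwise
disjoint over `k`, such that `[K i : k]` is a prime number or the automorphisms over `k` are doubly
transitive on the embeddings over `k`; then the conjecture holds for all `l` which do not split in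
`k`, and all Weil numbers all powers of which generate the fields `K i`, with arbitrary Newton
polygons*.

**The general theorem, part one.** Suppose that the fields are *separated* (`Separated`): for
`i ≠ j` which are not both in `J` and not in one block, `K i` and `K j` are *unlinked*, that is, for
all complex embeddings `φ` of `K i` and `ψ` of `K j` some automorphism of the complex numbers fixes `φ` and maps
`ψ` to its complex conjugate; and for `i ≠ j` in `J` the fields are *disjoint* over `k`, that is, the
automorphisms which fix an embedding of `K i` over `k` are transitive on the embeddings of `K j`
over `k`. Then **the relations of the whole family are determined by the relations of the single
Weil numbers** outside of the blocks: the relations split (`RelationsSplit`), that is, they are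
trivial for `i` outside of `J` and of the blocks, constant over `k` for `i` in `J`, and their parts
in a block belong to (multiples of) relations in this block, **if and only if** each `π i` outside of
`J` and of the blocks is free (`IsFree`: all relations between its own conjugates are trivial), and
for each `i` in `J` the relations between the conjugates of `π i` come from `k` (`ComesFrom`).
Nothing is assumed about the Weil numbers in the blocks.

(The conditions on the fields are optimal from the point of view of representation theory: `K i` and
`K j` are unlinked if and only if there is no equivariant map different from zero between the
functions on their embeddings which are odd under complex conjugation, and disjoint over `k` if and
only if the functions on their embeddings over `k` have only the constants in common.)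

**Part two.** If the relations split and the blocks are small (`IsSmall`: the fields in a block have
degree at most six, or the sum of their degrees is at most ten and they are not of degrees two and
eight; and if two of them have the same Galois closure they are Galois over the rational numbers)
then `HomPositive` holds: for all `l` which do not split in `k`, and for all `l` if `J` is empty,
the standard conjecture of Hodge type for `l`-adic classes, and the coincidence of numerical and
`l`-adic homological equivalence, for all `Y` of the class and the varieties `X` which specialize to
them (`SpecializesTo`: the ring of algebraic cycles on `X` modulo homological equivalence is mapped
injectively into the one of `Y`, and the ample divisor to the class of a polarization `α` compatible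
with the complex multiplications; by theorems of Honda, Tate and Zink each polarized abelian variety
over an algebraic closure of a finite field is isogenous to one with such an `α`).

**Part three: criteria** (`SingleCriteria`, for Weil numbers all powers of which generate their
fields). `π` is free if its field has a small core (`IsCoreWeil`; by `AllCriteria` this is so for
example if the degree of the Galois closure of `K` over the Galois closure of the maximal real
subfield is larger than `2 ^ (g / 3)`, `2 g = [K : ℚ]`; or larger than `2 ^ (g / 4)` and `π` is
ordinary; or if the maximal real subfield is doubly transitive, `g` is odd or `g - 1` is prime or `g` is none
of the numbers `10, 16, 26, 28, 36, …` of `TwoGraphDegree`, or triply transitive, and no norm of `π`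
to an imaginary quadratic field is supersingular); if `g` is a prime number, `π` is free if and only if no norm to
an imaginary quadratic subfield is supersingular. The relations of `π` come from `k` if the
functions with sum zero on the embeddings over `k` are irreducible (`OverCriteria`: if `[K : k]` is
prime or the automorphisms over `k` are doubly transitive), or if `[K : ℚ] ≥ 6` and the maximal real
subfield is triply transitive, or if one slope over `k` dominates the others. `SeparationCriteria`:
two fields are unlinked if a compositum has the maximal degree, or if a prime number divides the
discriminant of one of them, but not the one of its maximal real subfield and the one of the other
field; two fields over `k` are disjoint over `k` if a compositum over `k` has the maximal degree.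

So all three kinds of factors can be combined: for example products of powers of abelian varieties
of dimension at most five with arbitrary Weil numbers and unlinked fields, multiplied by abelian
varieties of prime dimensions, or with doubly transitive fields over `k`, with multiplication by one
imaginary quadratic field `k`.

**The proof.** Decoupling: let `n` be a relation and `φ` an embedding of `K i`. The sum of the
translates of `n` under the automorphisms which fix `φ` is a relation whose odd part is zero on
the fields unlinked from `K i`, and constant over `k` on the `K j` disjoint from `K i` over `k`. For a
free `π i` this gives a relation in one field, up to trivial ones, and so the odd part of `n` at
`φ` is zero. In the case of `J` one has to remove the parts in the other fields `K j`: one compares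
the translates for two embeddings `φ`, `φ'` over `k` (the sums of the odd parts over `k` are the same)
and obtains a relation in `K i` alone. For blocks: the relations are a module under the
automorphisms; the orthogonal projection of a relation to the orthogonal complement of the relations
in the block has, by the same averaging, zero odd part on the block. So the exponents of the
Frobenius eigenvalues of `Y` split into elementary relations (in the sense of the library: the Tate
classes are generated by divisors, Weil classes and classes on abelian varieties of dimension at
most five) and relations which are invariant over `k`. For those the positivity is the product
formula for the Hilbert symbol (library, `QuadraticRelations`), and for `l` not split in `k` the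
homological statement is that of helper395.

**What was known.** Divisors; abelian varieties of dimension at most three, abelian fourfolds (Ancona,
numerical statement); abelian varieties whose Tate classes are generated by divisors (Milne). The
library has this conjecture for abelian varieties of dimension at most five, for products of
elliptic curves and surfaces, and if all relations are elementary (`DimensionFiveAndSurfaces`), and
the numerical conjecture if the relations are generated by elementary ones and relations invariant
over `k` (`QuadraticRelations`, `PrimeDimensions`). MP_ffcd14_ag.ExoticQuadraticTypes (helper395) has
families with local types outside of `J` and linearly disjoint fields over `k`. New here: the
decoupling theorem (an equivalence, one Weil number at a time), any number of blocks of small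
abelian varieties with arbitrary relations together with free and exotic factors of all dimensions,
the fields with small cores as free factors, and all this for homological equivalence. It contains
the abelian varieties of the former hand-in `SmallCoreFields` on this page (without the factor
`Z`).
-/

set_option autoImplicit false

namespace Pool.Agent.Results.MP_361a6f_ag.SeparatedFactors

open NumberField Module Pool.Agent.H395.Cyc Pool.Agent.H298.Exo Pool.Agent.H298.Core

/-- **The standard conjecture of Hodge type for products of small, free and exotic abelian
varieties with separated fields.** First the case of unlinked fields of degree at most ten, then the
case of fields which are disjoint over an imaginary quadratic field, then the general theorem and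
the criteria. -/
theorem result (p : ℕ) [Fact p.Prime] (ν : PadicAlgCl p ≃+* ℂ) (a : ℕ) (ha : 0 < a) :
    (∀ (I : Type) [Fintype I] (W : I → WeilNum p a), (∀ i, finrank ℚ (W i).E ≤ 10) →
      (∀ i j, i ≠ j → AreUnlinked (W i).E (W j).E) → HomPositive ν Set.univ Set.univ W) ∧
    (∀ (Q : ImagQuad) (I : Type) [Fintype I] (W : I → WeilNum p a)
      (θ : ∀ i, FHom Q.k (W i).E), (∀ i, Generates (W i).num) → (∀ i, PrimeOrDouble Q (θ i)) →
      (∀ i j, i ≠ j → AreDisjoint Q (θ i) (θ j)) → HomPositive ν Q.nonsplit Set.univ W) ∧
    (∀ (Q : ImagQuad) (I B : Type) [Fintype I] [Fintype B] (J : Set I) (β : I → Option B)
      (W : I → WeilNum p a) (θ : Embedded Q J W), (∀ i ∈ J, β i = none) →
      (Separated Q J β W θ → (RelationsSplit Q J β W θ ↔
        (∀ i, i ∉ J → β i = none → IsFree (W i)) ∧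
          ∀ i (hi : i ∈ J), ComesFrom Q (W i) (θ i hi))) ∧
      (RelationsSplit Q J β W θ → (∀ b, IsSmall W {i | β i = some b}) →
        HomPositive ν {l | J = ∅ ∨ l ∈ Q.nonsplit} {i | i ∈ J ∨ β i ≠ none} W)) ∧
    SingleCriteria p a ∧ SeparationCriteria ∧ AllCriteria ∧ OverCriteria :=
  ⟨fun _ _ _ hd hU => hom_small ha hd hU, fun _ _ _ _ _ hg hE hD => hom_over ha hg hE hD,
    fun _ _ _ _ _ _ _ _ _ hβ => ⟨split_iff hβ, fun h hs => hom_of_split ha hβ hs h⟩,
    singleCriteria ha, separationCriteria, allCriteria_hold, criteria⟩

end Pool.Agent.Results.MP_361a6f_ag.SeparatedFactors
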